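import Pool.Agent.Helper58.ETL.Defs

/-! ETL-S6 (the ring). Block for helper58 (MP_600e55_nt). -/

set_option autoImplicit false

namespace Pool.Agent.Helper58.ETL

open Module

variable {k F A : Type*} [Field k] [Field F] [Algebra k F] [AddCommGroup A]

private lemma span_ne_bot {x : F} (hx : x ≠ 0) : Submodule.span k {x} ≠ ⊥ := by
  rw [Ne, Submodule.span_singleton_eq_bot]
  exact hx

private lemma span_fg (x : F) : (Submodule.span k {x}).FG := Submodule.fg_span_singleton x

private lemma smul_add_le (x y : F) (Y : Submodule k F) :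
    Submodule.span k {x + y} * Y ≤ Submodule.span k {x} * Y ⊔ Submodule.span k {y} * Y := by
  intro z hz
  rw [Submodule.mem_span_singleton_mul] at hz
  obtain ⟨w, hw, rfl⟩ := hz
  rw [add_mul]
  exact Submodule.add_mem_sup (Submodule.mem_span_singleton_mul.2 ⟨w, hw, rfl⟩)
    (Submodule.mem_span_singleton_mul.2 ⟨w, hw, rfl⟩)

private lemma smul_add_le' (x y : F) (Y : Submodule k F) :
    Submodule.span k {y} * Y ≤ Submodule.span k {x} * Y ⊔ Submodule.span k {x + y} * Y := by
  intro z hz
  rw [Submodule.mem_span_singleton_mul] at hz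
  obtain ⟨w, hw, rfl⟩ := hz
  have h : y * w = x * (-w) + (x + y) * w := by ring
  rw [h]
  exact Submodule.add_mem_sup (Submodule.mem_span_singleton_mul.2 ⟨-w, Y.neg_mem hw, rfl⟩)
    (Submodule.mem_span_singleton_mul.2 ⟨w, hw, rfl⟩)

private lemma ring_add {Φ : Submodule k F → A} {x y : F} (hx : x ∈ ringSet k Φ)
    (hy : y ∈ ringSet k Φ) : x + y ∈ ringSet k Φ := by
  intro Y Z hY hYf hZf
  have h1 := hx Y (Submodule.span k {x + y} * Y + Z) hY hYf
    (by simpa only [Submodule.add_eq_sup] using (((span_fg (x + y)).mul hYf).sup hZf))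
  have h2 := hy Y (Submodule.span k {x} * Y + Z) hY hYf
    (by simpa only [Submodule.add_eq_sup] using (((span_fg x).mul hYf).sup hZf))
  have h3 := hx Y Z hY hYf hZf
  have h4 : Y + Submodule.span k {x} * Y + (Submodule.span k {x + y} * Y + Z) =
      Y + Submodule.span k {y} * Y + (Submodule.span k {x} * Y + Z) := by
    have a1 := smul_add_le (k := k) x y Y
    have a2 := smul_add_le' (k := k) x y Y
    simp only [Submodule.add_eq_sup]
    apply le_antisymm
    · refine sup_le (sup_le ?_ ?_) (sup_le ?_ ?_)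
      · exact le_sup_left.trans le_sup_left
      · exact le_sup_left.trans le_sup_right
      · refine a1.trans (sup_le ?_ ?_)
        · exact le_sup_left.trans le_sup_right
        · exact le_sup_right.trans le_sup_left
      · exact le_sup_right.trans le_sup_right
    · refine sup_le (sup_le ?_ ?_) (sup_le ?_ ?_)
      · exact le_sup_left.trans le_sup_left
      · refine a2.trans (sup_le ?_ ?_)
        · exact le_sup_right.trans le_sup_left
        · exact le_sup_left.trans le_sup_right
      · exact le_sup_right.trans le_sup_left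
      · exact le_sup_right.trans le_sup_right
  have e1 : Y + Submodule.span k {x + y} * Y + Z = Y + (Submodule.span k {x + y} * Y + Z) :=
    add_assoc _ _ _
  have e2 : Y + Submodule.span k {x} * Y + Z = Y + (Submodule.span k {x} * Y + Z) :=
    add_assoc _ _ _
  rw [e1, ← h1, h4, h2, ← e2, h3]

private lemma ring_mul {Φ : Submodule k F → A} {x y : F} (hx : x ∈ ringSet k Φ)
    (hy : y ∈ ringSet k Φ) : x * y ∈ ringSet k Φ := by
  intro Y Z hY hYf hZf
  by_cases hy0 : y = 0
  · subst hy0
    simp
  have hY' : Submodule.span k {y} * Y ≠ ⊥ := by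
    rw [Ne, Submodule.mul_eq_bot]
    push Not
    exact ⟨span_ne_bot hy0, hY⟩
  have e0 : Submodule.span k {x} * (Submodule.span k {y} * Y) = Submodule.span k {x * y} * Y := by
    rw [← mul_assoc, Submodule.span_mul_span, Set.singleton_mul_singleton]
  have h1 := hx (Submodule.span k {y} * Y) (Y + Z) hY' ((span_fg y).mul hYf)
    (by simpa only [Submodule.add_eq_sup] using hYf.sup hZf)
  rw [e0] at h1
  have h2 := hy Y (Submodule.span k {x * y} * Y + Z) hY hYf
    (by simpa only [Submodule.add_eq_sup] using (((span_fg (x * y)).mul hYf).sup hZf))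
  have h3 := hy Y Z hY hYf hZf
  have e1 : Y + Submodule.span k {x * y} * Y + Z = Y + (Submodule.span k {x * y} * Y + Z) :=
    add_assoc _ _ _
  have e2 : Y + Submodule.span k {y} * Y + (Submodule.span k {x * y} * Y + Z) =
      Submodule.span k {y} * Y + Submodule.span k {x * y} * Y + (Y + Z) := by
    abel
  have e3 : Submodule.span k {y} * Y + (Y + Z) = Y + Submodule.span k {y} * Y + Z := by abel
  rw [e1, ← h2, e2, h1, e3, h3]

private lemma ring_const {Φ : Submodule k F → A} (c : k) : algebraMap k F c ∈ ringSet k Φ := by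
  intro Y Z _ _ _
  have h : Submodule.span k {algebraMap k F c} * Y ≤ Y := by
    intro z hz
    rw [Submodule.mem_span_singleton_mul] at hz
    obtain ⟨w, hw, rfl⟩ := hz
    rw [← Algebra.smul_def]
    exact Y.smul_mem c hw
  have h2 : Y + Submodule.span k {algebraMap k F c} * Y = Y := by
    rw [Submodule.add_eq_sup]
    exact sup_eq_left.2 h
  rw [h2]

/-- ETL-S6 (the ring). -/
theorem exists_ring {f : F → A} {N : ℕ} {Φ : Submodule k F → A} (hΦ : IsPhi k f N Φ) :
    ∃ O : Subalgebra k F, (O : Set F) = ringSet k Φ ∧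
      ∀ u : F, u ≠ 0 → u ∈ O → u⁻¹ ∈ O → f u = 0 := by
  refine ⟨{ carrier := ringSet k Φ, mul_mem' := ring_mul, add_mem' := ring_add,
            algebraMap_mem' := ring_const }, rfl, ?_⟩
  intro u hu h1 h2
  have h1' : u ∈ ringSet k Φ := h1
  have h2' : u⁻¹ ∈ ringSet k Φ := h2
  have one_ne : (1 : Submodule k F) ≠ ⊥ := by
    rw [Submodule.one_eq_span]
    exact span_ne_bot one_ne_zero
  have one_fg : (1 : Submodule k F).FG := by
    rw [Submodule.one_eq_span]
    exact span_fg 1
  have a1 := h1' 1 ⊥ one_ne one_fg Submodule.fg_bot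
  have a2 := h2' (Submodule.span k {u}) ⊥ (span_ne_bot hu) (span_fg u) Submodule.fg_bot
  rw [Submodule.span_mul_span, Set.singleton_mul_singleton, inv_mul_cancel₀ hu,
    ← Submodule.one_eq_span] at a2
  simp only [Submodule.add_eq_sup, sup_bot_eq, mul_one] at a1 a2
  have a3 : Φ (1 * 1) = Φ 1 + Φ 1 := hΦ.mul 1 1 one_ne one_fg one_ne one_fg
  rw [mul_one] at a3
  have a4 : Φ (1 : Submodule k F) = 0 := by
    have : Φ (1 : Submodule k F) + 0 = Φ 1 + Φ 1 := by rw [add_zero]; exact a3
    exact (add_left_cancel this).symm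
  have a5 := hΦ.line u hu
  rw [← a5, ← a2, sup_comm, a1, a4]

end Pool.Agent.Helper58.ETL
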