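import Pool.Agent.Helper94.ETL.S3b

/-! ETL-S7 (few poles). Block for helper58 (MP_600e55_nt). -/

set_option autoImplicit false

namespace Pool.Agent.Helper58.ETL

open Module

variable {k F A : Type*} [Field k] [Field F] [Algebra k F] [AddCommGroup A]

private lemma prod_ne_bot {ι : Type*} (s : Finset ι) (Q : ι → Submodule k F)
    (h : ∀ i ∈ s, Q i ≠ ⊥) : ∏ i ∈ s, Q i ≠ ⊥ := by
  classical
  induction s using Finset.induction_on with
  | empty =>
    rw [Finset.prod_empty, Submodule.one_eq_span, Ne, Submodule.span_singleton_eq_bot]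
    exact one_ne_zero
  | insert i s hi ih =>
    rw [Finset.prod_insert hi, Ne, Submodule.mul_eq_bot]
    push Not
    exact ⟨h i (Finset.mem_insert_self i s), ih fun j hj => h j (Finset.mem_insert_of_mem hj)⟩

private lemma prod_fg {ι : Type*} (s : Finset ι) (Q : ι → Submodule k F)
    (h : ∀ i ∈ s, (Q i).FG) : (∏ i ∈ s, Q i).FG := by
  classical
  induction s using Finset.induction_on with
  | empty =>
    rw [Finset.prod_empty, Submodule.one_eq_span]
    exact Submodule.fg_span_singleton 1
  | insert i s hi ih =>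
    rw [Finset.prod_insert hi]
    exact (h i (Finset.mem_insert_self i s)).mul (ih fun j hj => h j (Finset.mem_insert_of_mem hj))

private lemma quot_le {x : F} {a : k} (hxa : x - algebraMap k F a ≠ 0) (Y Z : Submodule k F) :
    Submodule.span k {x - algebraMap k F a} *
        (Y + Submodule.span k {(x - algebraMap k F a)⁻¹} * Y + Z) ≤
      (Y + Z) * Submodule.span k {1, x} := by
  have h1 : ∀ P : Submodule k F, Submodule.span k {x - algebraMap k F a} * P ≤
      P * Submodule.span k {1, x} := by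
    intro P
    rw [mul_comm]
    refine mul_le_mul' le_rfl ?_
    rw [Submodule.span_singleton_le_iff_mem]
    refine Submodule.sub_mem _ (Submodule.subset_span (by simp)) ?_
    rw [Algebra.algebraMap_eq_smul_one]
    exact Submodule.smul_mem _ _ (Submodule.subset_span (by simp))
  have h2 : ∀ P : Submodule k F, P ≤ P * Submodule.span k {1, x} := by
    intro P
    have h3 : P * 1 ≤ P * Submodule.span k {1, x} := by
      refine mul_le_mul' le_rfl ?_
      rw [Submodule.one_eq_span, Submodule.span_singleton_le_iff_mem]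
      exact Submodule.subset_span (by simp)
    rwa [mul_one] at h3
  rw [mul_add, mul_add, ← mul_assoc, Submodule.span_mul_span, Set.singleton_mul_singleton,
    mul_inv_cancel₀ hxa, ← Submodule.one_eq_span, one_mul, add_mul]
  simp only [Submodule.add_eq_sup]
  refine sup_le (sup_le ?_ ?_) ?_
  · exact (h1 Y).trans le_sup_left
  · exact (h2 Y).trans le_sup_left
  · exact (h1 Z).trans le_sup_right

/-- ETL-S7 (few poles; uses S3b). -/
theorem few_poles [Infinite k] {f : F → A} {N : ℕ} (hN : 0 < N) {Φ : Submodule k F → A}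
    (hΦ : IsPhi k f N Φ) (x : F) (hx : x ∉ Set.range (algebraMap k F)) :
    {a : k | (x - algebraMap k F a)⁻¹ ∉ ringSet k Φ}.encard ≤ N := by
  classical
  by_contra hcon
  push Not at hcon
  have hcon' : ((N + 1 : ℕ) : ℕ∞) ≤ {a : k | (x - algebraMap k F a)⁻¹ ∉ ringSet k Φ}.encard := by
    push_cast
    exact Order.add_one_le_of_lt hcon
  obtain ⟨t, ht, htc⟩ := Set.exists_subset_encard_eq hcon'
  have htf : t.Finite := Set.finite_of_encard_eq_coe htc
  obtain ⟨s, rfl⟩ : ∃ s : Finset k, (s : Set k) = t := ⟨htf.toFinset, htf.coe_toFinset⟩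
  rw [Set.encard_coe_eq_coe_finsetCard, Nat.cast_inj] at htc
  set e : Fin (N + 1) ≃ s := (s.equivFinOfCardEq htc).symm with he
  set a : Fin (N + 1) → k := fun i => (e i : k) with ha
  have hainj : Function.Injective a := fun i j hij => e.injective (Subtype.ext hij)
  have hsub : ∀ i, x - algebraMap k F (a i) ≠ 0 := by
    intro i h
    exact hx ⟨a i, (sub_eq_zero.1 h).symm⟩
  have hbad : ∀ i, ∃ Y Z : Submodule k F, Y ≠ ⊥ ∧ Y.FG ∧ Z.FG ∧
      Φ (Y + Submodule.span k {(x - algebraMap k F (a i))⁻¹} * Y + Z) ≠ Φ (Y + Z) := by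
    intro i
    have h := ht (e i).2
    simp only [ringSet, Set.mem_ofPred_eq] at h
    push Not at h
    obtain ⟨Y, Z, h1, h2, h3, h4⟩ := h
    exact ⟨Y, Z, h1, h2, h3, h4⟩
  choose Y Z hY hYf hZf hne using hbad
  set Q : Fin (N + 1) → Submodule k F := fun i => Y i + Z i with hQdef
  set Q' : Fin (N + 1) → Submodule k F := fun i =>
    Y i + Submodule.span k {(x - algebraMap k F (a i))⁻¹} * Y i + Z i with hQ'def
  set X : Submodule k F := Submodule.span k {1, x} with hX
  have hQQ' : ∀ i, Q i ≤ Q' i := by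
    intro i
    simp only [hQdef, hQ'def, Submodule.add_eq_sup]
    exact sup_le (le_sup_left.trans le_sup_left) le_sup_right
  have hQ'Q : ∀ i, Submodule.span k {x - algebraMap k F (a i)} * Q' i ≤ Q i * X :=
    fun i => quot_le (hsub i) (Y i) (Z i)
  have hQne : ∀ i, Q i ≠ ⊥ := by
    intro i h
    simp only [hQdef, Submodule.add_eq_sup] at h
    exact hY i (sup_eq_bot_iff.1 h).1
  have hQ'ne : ∀ i, Q' i ≠ ⊥ := fun i h => hQne i (le_bot_iff.1 (h ▸ hQQ' i))
  have hQf : ∀ i, (Q i).FG := by
    intro i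
    simp only [hQdef, Submodule.add_eq_sup]
    exact (hYf i).sup (hZf i)
  have hQ'f : ∀ i, (Q' i).FG := by
    intro i
    simp only [hQ'def, Submodule.add_eq_sup]
    exact ((hYf i).sup ((Submodule.fg_span_singleton _).mul (hYf i))).sup (hZf i)
  have hXne : X ≠ ⊥ := by
    intro h
    have : (1 : F) ∈ X := Submodule.subset_span (by simp)
    rw [h, Submodule.mem_bot] at this
    exact one_ne_zero this
  have hXf : X.FG := ⟨{1, x}, by simp [hX]⟩
  have hXNne : X ^ N ≠ ⊥ := pow_ne_zero (M₀ := Submodule k F) N hXne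
  have hXNf : (X ^ N).FG := hXf.pow N
  obtain ⟨j, hj⟩ := hΦ.mv (N + 1)
    (fun i => Q' i * (∏ h ∈ Finset.univ.erase i, Q h) * X ^ N) rfl (by
      intro i
      constructor
      · rw [Ne, Submodule.mul_eq_bot, Submodule.mul_eq_bot]
        push Not
        exact ⟨⟨hQ'ne i, prod_ne_bot _ _ fun h _ => hQne h⟩, hXNne⟩
      · exact ((hQ'f i).mul (prod_fg _ _ fun h _ => hQf h)).mul hXNf)
  have e1 := sum_prod_insert (Finset.univ : Finset (Fin (N + 1))) Finset.univ_nonempty x a
    (hainj.injOn) Q Q' (fun i _ => hQQ' i) (fun i _ => hQ'Q i) N (by simp)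
  have hne' : (Finset.univ.erase j : Finset (Fin (N + 1))).Nonempty := by
    rw [← Finset.card_pos, Finset.card_erase_of_mem (Finset.mem_univ j), Finset.card_univ,
      Fintype.card_fin]
    omega
  have e2 := sum_prod_insert (Finset.univ.erase j : Finset (Fin (N + 1))) hne' x a
    (hainj.injOn) Q Q' (fun i _ => hQQ' i) (fun i _ => hQ'Q i) N (by
      rw [Finset.card_erase_of_mem (Finset.mem_univ j), Finset.card_univ, Fintype.card_fin]
      omega)
  have e3 : ∑ i ∈ Finset.univ.erase j, Q' i * (∏ h ∈ Finset.univ.erase i, Q h) * X ^ N =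
      Q j * ((∏ h ∈ Finset.univ.erase j, Q' h) * X ^ N) := by
    rw [← e2, Finset.mul_sum]
    refine Finset.sum_congr rfl fun i hi => ?_
    have hij : i ≠ j := (Finset.mem_erase.1 hi).1
    have hji : j ∈ (Finset.univ.erase i : Finset (Fin (N + 1))) :=
      Finset.mem_erase.2 ⟨hij.symm, Finset.mem_univ j⟩
    rw [← Finset.mul_prod_erase _ _ hji, Finset.erase_right_comm]
    ring
  set R : Submodule k F := (∏ h ∈ Finset.univ.erase j, Q' h) * X ^ N with hR
  have hRne : R ≠ ⊥ := by
    rw [hR, Ne, Submodule.mul_eq_bot]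
    push Not
    exact ⟨prod_ne_bot _ _ fun h _ => hQ'ne h, hXNne⟩
  have hRf : R.FG := (prod_fg _ _ fun h _ => hQ'f h).mul hXNf
  have e4 : (∏ h, Q' h) * X ^ N = Q' j * R := by
    rw [hR, ← mul_assoc, Finset.mul_prod_erase _ _ (Finset.mem_univ j)]
  rw [e3, e1, e4, hΦ.mul _ _ (hQne j) (hQf j) hRne hRf,
    hΦ.mul _ _ (hQ'ne j) (hQ'f j) hRne hRf] at hj
  exact hne j (add_right_cancel hj).symm

end Pool.Agent.Helper58.ETL
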